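import Pool.Agent.H28.NW.Targets

/-!
# LIM: the lengths are small, logarithmic windows
-/

set_option autoImplicit false

open Finset

namespace Pool.Agent.H5.NW

open Pool.Agent.H28.NW

theorem pf_LIM : W_LIM := by
  intro ε hε
  obtain ⟨X₁, hX₁⟩ := Wn.pow_small (383 / 400) (by norm_num) (1209 / ε)
  refine ⟨max 3 X₁, le_max_left _ _, ?_⟩
  intro X k hX hk
  have hL3 : 3 ≤ X.L := (le_max_left _ _).trans hX
  have hmain := hX₁ X ((le_max_right _ _).trans hX)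
  have hT1 : 1 ≤ X.T := by linarith [X.L_le_T]
  obtain ⟨y, hyd⟩ : ∃ y, y = X.T := ⟨_, rfl⟩
  rw [← hyd] at hk hmain hT1
  have hy0 : 0 < y := by linarith
  have hk0 : (0 : ℝ) ≤ k := Nat.cast_nonneg _
  have h1 : 1 ≤ y ^ (191 / 200 : ℝ) := Real.one_le_rpow hT1 (by norm_num)
  have h2 : (k : ℝ) + 1 ≤ 3 * y ^ (191 / 200 : ℝ) := by linarith
  have h3 : y ^ (191 / 200 : ℝ) ≤ y := by
    have := Real.rpow_le_rpow_of_exponent_le hT1 (show (191 / 200 : ℝ) ≤ 1 by norm_num)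
    rwa [Real.rpow_one] at this
  have h4 : Real.log ((k : ℝ) + 1) ≤ Real.log 3 + Real.log y := by
    rw [← Real.log_mul (by norm_num) hy0.ne']
    exact Real.log_le_log (by linarith) (by linarith)
  have h5 : Real.log 3 ≤ 2 := by
    have := Real.log_le_sub_one_of_pos (show (0 : ℝ) < 3 by norm_num)
    linarith
  have h6 : Real.log y ≤ 400 * y ^ (1 / 400 : ℝ) := by
    have := Real.log_le_rpow_div hy0.le (show (0 : ℝ) < 1 / 400 by norm_num)
    refine this.trans (le_of_eq ?_)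
    field_simp
  have h7 : 1 ≤ y ^ (1 / 400 : ℝ) := Real.one_le_rpow hT1 (by norm_num)
  have h8 : 1 + Real.log ((k : ℝ) + 1) ≤ 403 * y ^ (1 / 400 : ℝ) := by linarith
  have hlog0 : 0 ≤ Real.log ((k : ℝ) + 1) := Real.log_nonneg (by linarith)
  have h9 : ((k : ℝ) + 1) * (1 + Real.log (k + 1)) ≤
      3 * y ^ (191 / 200 : ℝ) * (403 * y ^ (1 / 400 : ℝ)) :=
    mul_le_mul h2 h8 (by linarith) (by positivity)
  have h10 : 3 * y ^ (191 / 200 : ℝ) * (403 * y ^ (1 / 400 : ℝ)) = 1209 * y ^ (383 / 400 : ℝ) := by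
    have : y ^ (191 / 200 : ℝ) * y ^ (1 / 400 : ℝ) = y ^ (383 / 400 : ℝ) := by
      rw [← Real.rpow_add hy0]; norm_num
    rw [← this]; ring
  have h11 : 1209 * y ^ (383 / 400 : ℝ) = ε * (1209 / ε * y ^ (383 / 400 : ℝ)) := by
    field_simp
  rw [h10, h11] at h9
  exact h9.trans (mul_le_mul_of_nonneg_left hmain hε.le)

end Pool.Agent.H5.NW
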